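import Mathlib
import Pool.Agent.Work.MP_4cd38d_lc.Defs
import Pool.Agent.Work.MP_4cd38d_lc.Nonsing

set_option autoImplicit false

/-!
A Skolem–Mahler–Lech theorem for the indices at which two HD0L sequences with nonsingular incidence
matrices agree.
-/

namespace Pool.Agent.Results.MP_4cd38d_lc.NonsingularSystems

open Pool.Agent.Work.MP_4cd38d_lc

/-- Let `w₁(n) = g₂(g₁ⁿ(u))` and `w₂(n) = h₂(h₁ⁿ(v))` be HD0L sequences over the same alphabet `Γ`,
where `g₁`, `h₁` are endomorphisms of `A*`, `B*` with nonsingular incidence matrices. Then there are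
an odd prime `p` and an `N > 0` for which the `N`-th powers of the two incidence matrices are
congruent to the identity modulo `p`, and for every such pair `p`, `N` and every residue class
`c + Nℕ`:

* for every word `x` over `Γ`, the indices in the class at which `w₁` and `w₂` contain `x` equally
  often as a scattered subword are all indices of the class or only finitely many;
* the indices in the class at which `w₁ = w₂` are all indices of the class or only finitely
  many. -/
theorem result {A B Γ : Type*} [Fintype A] [DecidableEq A] [Fintype B] [DecidableEq B]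
    [DecidableEq Γ] (g₁ : A → List A) (g₂ : A → List Γ) (u : List A)
    (h₁ : B → List B) (h₂ : B → List Γ) (v : List B)
    (hg : (incidence g₁).det ≠ 0) (hh : (incidence h₁).det ≠ 0) :
    (∃ p N : ℕ, p.Prime ∧ p ≠ 2 ∧ 0 < N ∧
      (∀ s t, (p : ℤ) ∣ (incidence g₁ ^ N) s t - (1 : Matrix A A ℤ) s t) ∧
      (∀ s t, (p : ℤ) ∣ (incidence h₁ ^ N) s t - (1 : Matrix B B ℤ) s t)) ∧
    (∀ p N : ℕ, p.Prime → p ≠ 2 → 0 < N →
      (∀ s t, (p : ℤ) ∣ (incidence g₁ ^ N) s t - (1 : Matrix A A ℤ) s t) →
      (∀ s t, (p : ℤ) ∣ (incidence h₁ ^ N) s t - (1 : Matrix B B ℤ) s t) →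
      ∀ c : ℕ,
        (∀ x : List Γ,
          (∀ n, scatteredCount x (hd0l g₁ g₂ u (N * n + c)) =
            scatteredCount x (hd0l h₁ h₂ v (N * n + c))) ∨
          {n | scatteredCount x (hd0l g₁ g₂ u (N * n + c)) =
            scatteredCount x (hd0l h₁ h₂ v (N * n + c))}.Finite) ∧
        ((∀ n, hd0l g₁ g₂ u (N * n + c) = hd0l h₁ h₂ v (N * n + c)) ∨
          {n | hd0l g₁ g₂ u (N * n + c) = hd0l h₁ h₂ v (N * n + c)}.Finite)) := by
  refine ⟨exists_p_N g₁ h₁ hg hh, ?_⟩
  intro p N hp hp2 _ hgN hhN c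
  refine ⟨fun x => ?_, ?_⟩
  · by_cases h : {n | scatteredCount x (hd0l g₁ g₂ u (N * n + c)) =
            scatteredCount x (hd0l h₁ h₂ v (N * n + c))}.Finite
    · exact Or.inr h
    · exact Or.inl (dichotomy g₁ g₂ u h₁ h₂ v p N hp hp2 hgN hhN c x h)
  · by_cases h : {n | hd0l g₁ g₂ u (N * n + c) = hd0l h₁ h₂ v (N * n + c)}.Finite
    · exact Or.inr h
    · exact Or.inl (dichotomy_words g₁ g₂ u h₁ h₂ v p N hp hp2 hgN hhN c h)

end Pool.Agent.Results.MP_4cd38d_lc.NonsingularSystems
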