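import Mathlib
import Pool.Agent.Work.MP_4cd38d_pr.Defs
import Pool.Agent.Work.MP_4cd38d_pr_helper77.FIN2
import Pool.Agent.Work.MP_4cd38d_pr_helper77.NER
import Pool.Agent.Work.MP_4cd38d_pr_helper77.FAM
import Pool.Agent.Work.MP_4cd38d_pr_helper77.OV
import Pool.Agent.Work.MP_4cd38d_pr_helper19.INT
import Pool.Agent.Work.MP_4cd38d_pr_helper19.GLU
import Pool.Agent.Work.MP_4cd38d_pr_helper19.SPR
import Pool.Agent.Work.MP_4cd38d_pr_helper10.APB
import Pool.Agent.Work.MP_4cd38d_pr_helper53.GRO
import Pool.Agent.Work.MP_4cd38d_pr_helper53.DIC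
import Pool.Agent.Work.MP_4cd38d_pr_helper53.LEN
import Pool.Agent.Work.MP_4cd38d_pr_helper53.LSO
import Pool.Agent.Work.MP_4cd38d_pr_helper53.PER
import Pool.Agent.Work.MP_4cd38d_pr_helper53.SCL
import Pool.Agent.Work.MP_4cd38d_pr_helper53.TWO
import Pool.Agent.Work.MP_4cd38d_pr_helper56.CNT
import Pool.Agent.Work.MP_4cd38d_pr_helper56.LAM

set_option autoImplicit false

/-!
The intersection problem for HD0L sequences is decidable for primitive systems, one of which is not
periodic.
-/

namespace Pool.Agent.Results.MP_4cd38d_lc.PrimitiveSystems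

open Pool.Agent.Work.MP_4cd38d_lc Pool.Agent.Work.MP_4cd38d_pr

/-- One partial recursive function computes, for every covered pair of HD0L systems, a preperiod `N`
and a period `p` of the set of indices `n` at which the two sequences have equal terms. Hence this
set is computed, and whether it is empty is decided by the indices below `N + p`.

`Covered S S'` holds if both systems are primitive and at least one of them is not periodic; it also
holds if both systems are proper and have letters, the words `g₂(g₁ᵏ(a))` of all letters of both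
systems have, for all large `k`, the same length up to a constant factor, and one of the two systems
has bounded powers. -/
theorem result :
    ∃ f : HSystem × HSystem →. ℕ × ℕ, Partrec f ∧ ∀ S S' : HSystem, Covered S S' →
      ∃ N p, (N, p) ∈ f (S, S') ∧ 0 < p ∧
        (∀ n ≥ N, (term S n = term S' n ↔ term S (n + p) = term S' (n + p))) ∧
        ((∃ n, term S n = term S' n) ↔ ∃ n < N + p, term S n = term S' n) := by
  have hNER : Stmt_NER := Pool.HD.helper77.stmt_NER
  have hINT : Stmt_INT := Pool.HD.helper19.stmt_INT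
  have hOV1 : Stmt_OV1 := Pool.HD.helper77.stmt_OV1
  have hOV2 : Stmt_OV2 := Pool.HD.helper77.stmt_OV2
  have hRES : Stmt_RES := Pool.HD.helper77.stmt_RES
  have hSPC : Stmt_SPC := Pool.HD.helper19.stmt_SPC Pool.HD.helper19.stmt_SPR
  have hGRO : Stmt_GRO := Pool.HD.helper53.stmt_GRO
  obtain ⟨f, hf, h⟩ := Pool.HD.helper77.fin_computable hNER (Pool.HD.helper77.stmt_FAM hNER)
    (Pool.HD.helper56.stmt_CNT hOV1 hOV2 hRES hSPC) (Pool.HD.helper56.stmt_LAM hOV1 hOV2 hRES)
    (Pool.HD.helper53.stmt_PER hINT) (Pool.HD.helper53.stmt_DIC hGRO)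
    (Pool.HD.helper53.stmt_LEN hGRO) Pool.HD.helper53.stmt_LSO
    (Pool.HD.helper10.stmt_APB Pool.HD.helper19.stmt_GLU Pool.HD.helper19.stmt_INB
      Pool.HD.helper53.stmt_TWO (Pool.HD.helper53.stmt_SCL hGRO))
  refine ⟨f, hf, fun S S' hcov => ?_⟩
  obtain ⟨N, p, h1, h2, h3⟩ := h S S' hcov
  refine ⟨N, p, h1, h2, h3, ?_, fun ⟨n, _, hn⟩ => ⟨n, hn⟩⟩
  rintro ⟨n, hn⟩
  induction n using Nat.strong_induction_on with
  | _ n ih =>
    rcases Nat.lt_or_ge n (N + p) with hlt | hge
    · exact ⟨n, hlt, hn⟩
    · refine ih (n - p) (by omega) ((h3 (n - p) (by omega)).2 ?_)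
      rw [Nat.sub_add_cancel (by omega)]
      exact hn

end Pool.Agent.Results.MP_4cd38d_lc.PrimitiveSystems
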