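import Pool.Agent.Work.MP_4cd38d_rs.All

set_option autoImplicit false

/-! # MP_4cd38d: Q1 is decidable for HD0L systems of real type -/

namespace Pool.Agent.Results.MP_4cd38d_lc.RealType

open Pool.Agent.Work.MP_4cd38d_lc
open Pool.RS

/-- There is one partial recursive procedure on pairs of HD0L systems which is never wrong about
the existence of an index at which the two sequences have equal terms, and which halts on all
pairs of covered systems. -/
theorem result : ∃ f : HSystem × HSystem →. Bool, Partrec f ∧
    (∀ S S' : HSystem, (true ∈ f (S, S') → ∃ n, term S n = term S' n) ∧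
      (false ∈ f (S, S') → ¬ ∃ n, term S n = term S' n)) ∧
    ∀ S S' : HSystem, Covered S → Covered S' → (f (S, S')).Dom :=
  Pool.RS.main

end Pool.Agent.Results.MP_4cd38d_lc.RealType
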