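import Mathlib
import Pool.Agent.Work.MP_4cd38d_lc.DefsSkolem
import Pool.Agent.Work.MP_4cd38d_lc.Reduction

set_option autoImplicit false

/-!
The intersection problem for HD0L systems with nonsingular incidence matrices reduces to Skolem's
problem (zeros of integer linear recurrence sequences).
-/

namespace Pool.Agent.Results.MP_4cd38d_lc.SkolemReduction

open Pool.Agent.Work.MP_4cd38d_lc

/-- There is a computable function `τ` which sends a pair of HD0L systems and a natural number `m`
to an integer linear recurrence sequence (a list of coefficients and a list of as many initial
values, at least one), such that for all nonsingular systems `S`, `S'`: the two HD0L sequences have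
equal terms at some common index if and only if for every `m` the linear recurrence sequence
`τ ((S, S'), m)` has a zero.

Consequently, if Skolem's problem (does a given integer linear recurrence sequence have a zero?) is
decidable, then there is a partial recursive function which on all pairs of nonsingular systems
halts and decides whether the two sequences have equal terms at some common index. -/
theorem result :
    (∃ τ : (HSystem × HSystem) × ℕ → List ℤ × List ℤ, Computable τ ∧
      (∀ q, (τ q).1.length = (τ q).2.length ∧ 0 < (τ q).1.length) ∧
      ∀ S S' : HSystem, Nonsingular S → Nonsingular S' →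
        ((∃ n, term S n = term S' n) ↔
          ∀ m, ∃ n, lrs (τ ((S, S'), m)).1 (τ ((S, S'), m)).2 n = 0)) ∧
    ((ComputablePred fun p : List ℤ × List ℤ =>
        p.1.length = p.2.length ∧ 0 < p.1.length ∧ ∃ n, lrs p.1 p.2 n = 0) →
      ∃ f : HSystem × HSystem →. Bool, Partrec f ∧
        ∀ S S' : HSystem, Nonsingular S → Nonsingular S' →
          ((∃ n, term S n = term S' n) → true ∈ f (S, S')) ∧
          ((¬ ∃ n, term S n = term S' n) → false ∈ f (S, S'))) :=
  ⟨reduction, decidable_of_skolem⟩

end Pool.Agent.Results.MP_4cd38d_lc.SkolemReduction
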